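import Mathlib

set_option autoImplicit false

/-! Convolution powers of character sums (for project GJ of helper883). -/

namespace Pool.Agent.Y662.GJ

open Finset

/-- the convolution -/
noncomputable def cv (X Y : ℕ) (u v : ℕ → ℂ) (n : ℕ) : ℂ :=
  ∑ p ∈ (Icc 1 X ×ˢ Icc 1 Y).filter (fun p : ℕ × ℕ => p.1 * p.2 = n), u p.1 * v p.2

lemma cv_sum {q : ℕ} (X Y : ℕ) (u v : ℕ → ℂ) (χ : DirichletCharacter ℂ q) :
    (∑ m ∈ Icc 1 X, u m * χ (m : ZMod q)) * (∑ m ∈ Icc 1 Y, v m * χ (m : ZMod q)) =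
      ∑ n ∈ Icc 1 (X * Y), cv X Y u v n * χ (n : ZMod q) := by
  rw [Finset.sum_mul_sum, ← Finset.sum_product']
  rw [← Finset.sum_fiberwise_of_maps_to (s := Icc 1 X ×ˢ Icc 1 Y) (t := Icc 1 (X * Y))
    (g := fun p : ℕ × ℕ => p.1 * p.2)]
  · refine Finset.sum_congr rfl fun n hn => ?_
    rw [cv, Finset.sum_mul]
    refine Finset.sum_congr rfl fun p hp => ?_
    rw [Finset.mem_filter] at hp
    rw [← hp.2]
    push_cast
    rw [map_mul]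
    ring
  · intro p hp
    simp only [Finset.mem_product, Finset.mem_Icc] at hp ⊢
    exact ⟨Nat.one_le_iff_ne_zero.mpr (Nat.mul_ne_zero (by omega) (by omega)),
      Nat.mul_le_mul hp.1.2 hp.2.2⟩

lemma card_divisors_le_of_dvd {m n : ℕ} (hn : n ≠ 0) (h : m ∣ n) :
    (m.divisors.card : ℝ) ≤ n.divisors.card := by
  exact_mod_cast Finset.card_le_card (Nat.divisors_subset_of_dvd hn h)

lemma cv_bound (X Y i j : ℕ) (u v : ℕ → ℂ) (α β : ℝ) (hα : 0 ≤ α) (hβ : 0 ≤ β)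
    (hu : ∀ m ∈ Icc 1 X, ‖u m‖ ≤ α * (m.divisors.card : ℝ) ^ i)
    (hv : ∀ m ∈ Icc 1 Y, ‖v m‖ ≤ β * (m.divisors.card : ℝ) ^ j) (n : ℕ) (hn : 1 ≤ n) :
    ‖cv X Y u v n‖ ≤ α * β * (n.divisors.card : ℝ) ^ (i + j + 1) := by
  have h1 : ∀ p ∈ (Icc 1 X ×ˢ Icc 1 Y).filter (fun p : ℕ × ℕ => p.1 * p.2 = n),
      ‖u p.1 * v p.2‖ ≤ α * β * (n.divisors.card : ℝ) ^ (i + j) := by
    intro p hp
    rw [Finset.mem_filter, Finset.mem_product] at hp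
    obtain ⟨⟨hp1, hp2⟩, hpn⟩ := hp
    rw [norm_mul]
    have hn0 : n ≠ 0 := by omega
    have e1 : (p.1.divisors.card : ℝ) ≤ n.divisors.card :=
      card_divisors_le_of_dvd hn0 ⟨p.2, hpn.symm⟩
    have e2 : (p.2.divisors.card : ℝ) ≤ n.divisors.card :=
      card_divisors_le_of_dvd hn0 ⟨p.1, by rw [← hpn, mul_comm]⟩
    calc ‖u p.1‖ * ‖v p.2‖ ≤ (α * (n.divisors.card : ℝ) ^ i) * (β * (n.divisors.card : ℝ) ^ j) := by
          refine mul_le_mul ((hu _ hp1).trans ?_) ((hv _ hp2).trans ?_) (norm_nonneg _) (by positivity)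
          · exact mul_le_mul_of_nonneg_left (pow_le_pow_left₀ (by positivity) e1 _) hα
          · exact mul_le_mul_of_nonneg_left (pow_le_pow_left₀ (by positivity) e2 _) hβ
      _ = α * β * (n.divisors.card : ℝ) ^ (i + j) := by rw [pow_add]; ring
  have h2 : (((Icc 1 X ×ˢ Icc 1 Y).filter (fun p : ℕ × ℕ => p.1 * p.2 = n)).card : ℝ) ≤
      n.divisors.card := by
    have : ((Icc 1 X ×ˢ Icc 1 Y).filter (fun p : ℕ × ℕ => p.1 * p.2 = n)).card ≤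
        n.divisors.card := by
      refine Finset.card_le_card_of_injOn Prod.fst ?_ ?_
      · intro p hp
        have hp' := Finset.mem_filter.mp (Finset.mem_coe.mp hp)
        exact Finset.mem_coe.mpr (Nat.mem_divisors.mpr ⟨⟨p.2, hp'.2.symm⟩, by omega⟩)
      · intro p hp p' hp' hpp
        have h1 := Finset.mem_filter.mp (Finset.mem_coe.mp hp)
        have h2 := Finset.mem_filter.mp (Finset.mem_coe.mp hp')
        have h3 := h1.2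
        have h4 := h2.2
        have h5 := (Finset.mem_Icc.mp (Finset.mem_product.mp h1.1).1).1
        refine Prod.ext hpp ?_
        have : p.1 * p.2 = p.1 * p'.2 := by rw [h3, ← h4, hpp]
        exact Nat.eq_of_mul_eq_mul_left (by omega) this
    exact_mod_cast this
  calc ‖cv X Y u v n‖ ≤ ∑ p ∈ (Icc 1 X ×ˢ Icc 1 Y).filter (fun p : ℕ × ℕ => p.1 * p.2 = n),
        ‖u p.1 * v p.2‖ := norm_sum_le _ _
    _ ≤ ∑ p ∈ (Icc 1 X ×ˢ Icc 1 Y).filter (fun p : ℕ × ℕ => p.1 * p.2 = n),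
        α * β * (n.divisors.card : ℝ) ^ (i + j) := Finset.sum_le_sum h1
    _ = (((Icc 1 X ×ˢ Icc 1 Y).filter (fun p : ℕ × ℕ => p.1 * p.2 = n)).card : ℝ) *
        (α * β * (n.divisors.card : ℝ) ^ (i + j)) := by
          rw [Finset.sum_const, nsmul_eq_mul]
    _ ≤ (n.divisors.card : ℝ) * (α * β * (n.divisors.card : ℝ) ^ (i + j)) := by
          refine mul_le_mul_of_nonneg_right h2 (by positivity)
    _ = _ := by rw [pow_succ]; ring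

lemma power (q X : ℕ) (a : ℕ → ℂ) (ℓ : ℝ) (hℓ : 0 ≤ ℓ)
    (ha : ∀ m ∈ Icc 1 X, ‖a m‖ ≤ ℓ * (m.divisors.card : ℝ)) (j : ℕ) :
    ∃ w : ℕ → ℂ, (∀ n ∈ Icc 1 (X ^ (j + 1)), ‖w n‖ ≤ ℓ ^ (j + 1) * (n.divisors.card : ℝ) ^ (2 * j + 1)) ∧
      ∀ χ : DirichletCharacter ℂ q, (∑ m ∈ Icc 1 X, a m * χ (m : ZMod q)) ^ (j + 1) =
        ∑ n ∈ Icc 1 (X ^ (j + 1)), w n * χ (n : ZMod q) := by
  induction j with
  | zero => exact ⟨a, by simpa using ha, by simp⟩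
  | succ j ih =>
    obtain ⟨w, hw, hw2⟩ := ih
    refine ⟨cv (X ^ (j + 1)) X w a, ?_, ?_⟩
    · intro n hn
      have := cv_bound (X ^ (j + 1)) X (2 * j + 1) 1 w a (ℓ ^ (j + 1)) ℓ (by positivity) hℓ hw
        (by simpa using ha) n (Finset.mem_Icc.mp hn).1
      calc ‖cv (X ^ (j + 1)) X w a n‖ ≤ _ := this
        _ = _ := by rw [← pow_succ, show 2 * j + 1 + 1 + 1 = 2 * (j + 1) + 1 by ring]
    · intro χ
      rw [pow_succ, hw2, cv_sum, ← pow_succ]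

/-- the estimate in terms of the mean value and the moments of the divisor function -/
lemma count_core (q X k : ℕ) [NeZero q] (a : ℕ → ℂ) (ℓ T : ℝ) (hX : 1 ≤ X)
    (hℓ : 1 + Real.log X ≤ ℓ) (hT : 0 < T)
    (ha : ∀ m ∈ Icc 1 X, ‖a m‖ ≤ ℓ * (m.divisors.card : ℝ))
    (hL : ∀ (Z : ℕ) (w : ℕ → ℂ),
      ∑ χ : DirichletCharacter ℂ q, ‖∑ n ∈ Icc 1 Z, w n * χ (n : ZMod q)‖ ^ 2 ≤
      ((Z : ℝ) + q) * ∑ n ∈ Icc 1 Z, ‖w n‖ ^ 2)
    (hτ : ∀ Z : ℕ, 1 ≤ Z → ∑ n ∈ Icc 1 Z, (n.divisors.card : ℝ) ^ 18 ≤ Z * (1 + Real.log Z) ^ k)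
    (S : Finset (DirichletCharacter ℂ q))
    (hS : ∀ χ ∈ S, T < ‖∑ m ∈ Icc 1 X, a m * χ (m : ZMod q)‖) :
    (S.card : ℝ) * T ^ 10 ≤ ((X : ℝ) ^ 5 + q) * X ^ 5 * (5 * ℓ) ^ (k + 10) := by
  have hlog : 0 ≤ Real.log X := Real.log_nonneg (by exact_mod_cast hX)
  have hℓ1 : 1 ≤ ℓ := by linarith
  have hℓ0 : 0 ≤ ℓ := by linarith
  obtain ⟨w, hw, hw2⟩ := power q X a ℓ hℓ0 ha 4
  have h1 : (S.card : ℝ) * T ^ 10 ≤
      ∑ χ : DirichletCharacter ℂ q, ‖∑ n ∈ Icc 1 (X ^ 5), w n * χ (n : ZMod q)‖ ^ 2 := by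
    calc (S.card : ℝ) * T ^ 10 = ∑ χ ∈ S, T ^ 10 := by rw [Finset.sum_const, nsmul_eq_mul]
      _ ≤ ∑ χ ∈ S, ‖∑ n ∈ Icc 1 (X ^ 5), w n * χ (n : ZMod q)‖ ^ 2 := by
          refine Finset.sum_le_sum fun χ hχ => ?_
          have := hw2 χ
          norm_num at this
          rw [← this, norm_pow, ← pow_mul]
          exact pow_le_pow_left₀ hT.le (hS χ hχ).le _
      _ ≤ _ := Finset.sum_le_sum_of_subset_of_nonneg (Finset.subset_univ _)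
          (fun _ _ _ => by positivity)
  have h2 : ∑ n ∈ Icc 1 (X ^ 5), ‖w n‖ ^ 2 ≤ (X : ℝ) ^ 5 * (5 * ℓ) ^ (k + 10) := by
    calc ∑ n ∈ Icc 1 (X ^ 5), ‖w n‖ ^ 2 ≤
        ∑ n ∈ Icc 1 (X ^ 5), ℓ ^ 10 * (n.divisors.card : ℝ) ^ 18 := by
          refine Finset.sum_le_sum fun n hn => ?_
          have := hw n (by simpa using hn)
          norm_num at this
          calc ‖w n‖ ^ 2 ≤ (ℓ ^ 5 * (n.divisors.card : ℝ) ^ 9) ^ 2 :=
                pow_le_pow_left₀ (norm_nonneg _) this _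
            _ = _ := by ring
      _ = ℓ ^ 10 * ∑ n ∈ Icc 1 (X ^ 5), (n.divisors.card : ℝ) ^ 18 := by rw [Finset.mul_sum]
      _ ≤ ℓ ^ 10 * (((X ^ 5 : ℕ) : ℝ) * (1 + Real.log ((X ^ 5 : ℕ) : ℝ)) ^ k) :=
          mul_le_mul_of_nonneg_left (hτ _ (Nat.one_le_pow _ _ hX)) (by positivity)
      _ ≤ (5 * ℓ) ^ 10 * ((X : ℝ) ^ 5 * (5 * ℓ) ^ k) := by
          push_cast
          rw [Real.log_pow]
          have e1 : (1 + ((5 : ℕ) : ℝ) * Real.log X) ≤ 5 * ℓ := by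
            push_cast
            linarith
          have e0 : 0 ≤ 1 + ((5 : ℕ) : ℝ) * Real.log X := by positivity
          have e2 := pow_le_pow_left₀ e0 e1 k
          refine mul_le_mul (pow_le_pow_left₀ hℓ0 (by linarith) _)
            (mul_le_mul_of_nonneg_left e2 (by positivity)) (by positivity) (by positivity)
      _ = _ := by rw [pow_add]; ring
  calc (S.card : ℝ) * T ^ 10 ≤ _ := h1
    _ ≤ (((X ^ 5 : ℕ) : ℝ) + q) * ∑ n ∈ Icc 1 (X ^ 5), ‖w n‖ ^ 2 := hL _ _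
    _ ≤ (((X ^ 5 : ℕ) : ℝ) + q) * ((X : ℝ) ^ 5 * (5 * ℓ) ^ (k + 10)) :=
        mul_le_mul_of_nonneg_left h2 (by positivity)
    _ = _ := by push_cast; ring

end Pool.Agent.Y662.GJ
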