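import Pool.Agent.Y662.GJ.Core
import Pool.Agent.Y883.GJ.Stm
import Pool.Agent.TH935.LP.L1

set_option autoImplicit false

/-! Job GJ-COUNT: few characters have a large sum. -/

namespace Pool.Agent.Y662.GJ

open Finset
open Pool.Agent.Y883.GJ

theorem count (h : L2Stm) : CountStm := by
  obtain ⟨k, hk⟩ : ∃ k : ℕ, k = 2 ^ 18 := ⟨_, rfl⟩
  refine ⟨k + 10, ?_⟩
  intro q X _ a ℓ T hX hℓ hT ha
  refine count_core q X k a ℓ T hX hℓ hT ha (fun Z w => (h q Z w).1) ?_ _ ?_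
  · intro Z hZ
    rw [hk]
    exact Pool.Agent.TH935.LD.tau_pow_sum 18 Z
  · intro χ hχ
    exact (Finset.mem_filter.mp hχ).2

end Pool.Agent.Y662.GJ
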