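import Mathlib

set_option autoImplicit false

/-! Generalised Jacobi sums: Fourier analysis on `ZMod q` and the bound in terms of a bound for
the Gauss sums. -/

namespace Pool.Agent.Y662.GJ

open Finset

variable {q : ℕ} [NeZero q]

/-- the exponential sum of a function on `ZMod q` -/
noncomputable def fs (F : ZMod q → ℂ) (k : ZMod q) : ℂ :=
  ∑ l : ZMod q, F l * ZMod.stdAddChar (l * k)

lemma conj_std (x : ZMod q) :
    (starRingEnd ℂ) (ZMod.stdAddChar x) = (ZMod.stdAddChar (-x) : ℂ) :=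
  (AddChar.map_neg_eq_conj _ _).symm

lemma parseval (F : ZMod q → ℂ) : ∑ k, ‖fs F k‖ ^ 2 = q * ∑ l, ‖F l‖ ^ 2 := by
  have h : ((∑ k, ‖fs F k‖ ^ 2 : ℝ) : ℂ) = ((q * ∑ l, ‖F l‖ ^ 2 : ℝ) : ℂ) := by
    push_cast
    have e1 : ∀ k, ((‖fs F k‖ : ℝ) : ℂ) ^ 2 =
        ∑ l, ∑ m, F l * (starRingEnd ℂ) (F m) * ZMod.stdAddChar (k * (l - m)) := by
      intro k
      rw [← Complex.mul_conj', fs, map_sum, Finset.sum_mul_sum]
      refine Finset.sum_congr rfl fun l _ => Finset.sum_congr rfl fun m _ => ?_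
      rw [map_mul (starRingEnd ℂ), conj_std]
      have : (ZMod.stdAddChar (k * (l - m)) : ℂ) =
          ZMod.stdAddChar (l * k) * ZMod.stdAddChar (-(m * k)) := by
        rw [← AddChar.map_add_eq_mul]
        congr 1
        ring
      rw [this]
      ring
    simp_rw [e1]
    rw [Finset.sum_comm, Finset.mul_sum]
    refine Finset.sum_congr rfl fun l _ => ?_
    rw [Finset.sum_comm]
    have e2 : ∀ m, ∑ k, F l * (starRingEnd ℂ) (F m) * (ZMod.stdAddChar (k * (l - m)) : ℂ) =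
        if l = m then q * ((‖F l‖ : ℂ) ^ 2) else 0 := by
      intro m
      rw [← Finset.mul_sum, AddChar.sum_mulShift _ (ZMod.isPrimitive_stdAddChar q)]
      by_cases hlm : l = m
      · subst hlm
        rw [sub_self, if_pos rfl, if_pos rfl, Complex.mul_conj', ZMod.card]
        ring
      · rw [if_neg hlm, if_neg (sub_ne_zero.mpr hlm)]
        simp
    simp_rw [e2]
    simp
  exact_mod_cast h

lemma fs_conv (F G : ZMod q → ℂ) (k : ZMod q) :
    fs (fun b => ∑ l, F l * G (b - l)) k = fs F k * fs G k := by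
  unfold fs
  rw [Finset.sum_mul]
  simp_rw [Finset.sum_mul]
  rw [Finset.sum_comm]
  refine Finset.sum_congr rfl fun l _ => ?_
  rw [Finset.mul_sum, ← Equiv.sum_comp (Equiv.addRight l)]
  refine Finset.sum_congr rfl fun m _ => ?_
  simp only [Equiv.coe_addRight, add_sub_cancel_right]
  rw [add_mul, AddChar.map_add_eq_mul]
  ring

lemma conv_bound (F G : ZMod q → ℂ) (M : ℝ) (h : ∀ k, ‖fs F k‖ ≤ M) :
    ∑ b, ‖∑ l, F l * G (b - l)‖ ^ 2 ≤ M ^ 2 * ∑ l, ‖G l‖ ^ 2 := by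
  have h1 := parseval (fun b => ∑ l, F l * G (b - l))
  have h2 := parseval G
  have hq : (0 : ℝ) < q := by exact_mod_cast NeZero.pos q
  refine le_of_mul_le_mul_left ?_ hq
  rw [← h1]
  calc ∑ k, ‖fs (fun b => ∑ l, F l * G (b - l)) k‖ ^ 2 = ∑ k, ‖fs F k‖ ^ 2 * ‖fs G k‖ ^ 2 := by
        simp_rw [fs_conv, norm_mul, mul_pow]
    _ ≤ ∑ k, M ^ 2 * ‖fs G k‖ ^ 2 := by
        refine Finset.sum_le_sum fun k _ => ?_
        exact mul_le_mul_of_nonneg_right (pow_le_pow_left₀ (norm_nonneg _) (h k) _) (by positivity)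
    _ = M ^ 2 * (q * ∑ l, ‖G l‖ ^ 2) := by rw [← Finset.mul_sum, h2]
    _ = _ := by ring

lemma jac_unit (χ₁ χ₂ : DirichletCharacter ℂ q) (a : ZMod q) (u : (ZMod q)ˣ) :
    ‖∑ l : ZMod q, χ₁ l * χ₂ ((u : ZMod q) * a - l)‖ = ‖∑ l : ZMod q, χ₁ l * χ₂ (a - l)‖ := by
  rw [← Equiv.sum_comp (Units.mulLeft u)]
  have : ∀ l, χ₁ ((u : ZMod q) * l) * χ₂ ((u : ZMod q) * a - (u : ZMod q) * l) =
      χ₁ (u : ZMod q) * χ₂ (u : ZMod q) * (χ₁ l * χ₂ (a - l)) := by
    intro l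
    rw [← mul_sub, map_mul, map_mul]
    ring
  simp only [Units.mulLeft_apply, this]
  rw [← Finset.mul_sum, norm_mul, norm_mul, DirichletCharacter.unit_norm_eq_one,
    DirichletCharacter.unit_norm_eq_one, one_mul, one_mul]

lemma card_ker (a : ZMod q) :
    (univ.filter (fun x : ZMod q => x * a = 0)).card ≤ Nat.gcd a.val q := by
  have hg : 0 < Nat.gcd a.val q := Nat.gcd_pos_of_pos_right _ (NeZero.pos q)
  refine le_trans (Finset.card_le_card ?_) (IsAddCyclic.card_nsmul_eq_zero_le hg (α := ZMod q))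
  intro x hx
  simp only [mem_filter, mem_univ, true_and] at hx ⊢
  have h1 : a.val • x = 0 := by
    rw [nsmul_eq_mul, ZMod.natCast_zmod_val, mul_comm]
    exact hx
  have h2 : q • x = 0 := by simp
  exact addOrderOf_dvd_iff_nsmul_eq_zero.mp (Nat.dvd_gcd (addOrderOf_dvd_of_nsmul_eq_zero h1)
    (addOrderOf_dvd_of_nsmul_eq_zero h2))

lemma card_sol (a b : ZMod q) :
    (univ.filter (fun u : (ZMod q)ˣ => (u : ZMod q) * a = b)).card ≤ Nat.gcd a.val q := by
  rcases (univ.filter (fun u : (ZMod q)ˣ => (u : ZMod q) * a = b)).eq_empty_or_nonempty with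
    h | ⟨u0, h0⟩
  · rw [h]
    simp
  · refine le_trans (Finset.card_le_card_of_injOn (fun u : (ZMod q)ˣ => (u : ZMod q) - u0) ?_ ?_)
      (card_ker a)
    · intro u hu
      simp only [coe_filter, mem_univ, true_and, Set.mem_setOf_eq, mem_filter] at hu h0 ⊢
      rw [sub_mul, hu, h0, sub_self]
    · intro u _ v _ h
      exact Units.ext (sub_left_injective h)

lemma unit_avg (H : ZMod q → ℝ) (hH : ∀ b, 0 ≤ H b) (a : ZMod q)
    (hu : ∀ u : (ZMod q)ˣ, H ((u : ZMod q) * a) = H a) :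
    (q.totient : ℝ) * H a ≤ (Nat.gcd a.val q : ℝ) * ∑ b, H b := by
  calc (q.totient : ℝ) * H a = ∑ u : (ZMod q)ˣ, H ((u : ZMod q) * a) := by
        simp_rw [hu]
        rw [Finset.sum_const, nsmul_eq_mul, Finset.card_univ, ZMod.card_units_eq_totient]
    _ = ∑ b, ∑ u ∈ univ.filter (fun u : (ZMod q)ˣ => (u : ZMod q) * a = b),
          H ((u : ZMod q) * a) := by
        rw [Finset.sum_fiberwise]
    _ = ∑ b, ((univ.filter (fun u : (ZMod q)ˣ => (u : ZMod q) * a = b)).card : ℝ) * H b := by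
        refine Finset.sum_congr rfl fun b _ => ?_
        rw [Finset.sum_congr rfl (fun u hu => by rw [(Finset.mem_filter.mp hu).2]),
          Finset.sum_const, nsmul_eq_mul]
    _ ≤ ∑ b, (Nat.gcd a.val q : ℝ) * H b := by
        refine Finset.sum_le_sum fun b _ => ?_
        exact mul_le_mul_of_nonneg_right (by exact_mod_cast card_sol a b) (hH b)
    _ = _ := by rw [Finset.mul_sum]

lemma sum_char_sq (χ : DirichletCharacter ℂ q) : ∑ l : ZMod q, ‖χ l‖ ^ 2 = q.totient := by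
  have h1 : ∑ l ∈ (univ : Finset (ZMod q)ˣ).image (fun u : (ZMod q)ˣ => (u : ZMod q)), ‖χ l‖ ^ 2 =
      ∑ l : ZMod q, ‖χ l‖ ^ 2 := by
    refine Finset.sum_subset (Finset.subset_univ _) ?_
    intro l _ hl
    have : ¬ IsUnit l := by
      intro ⟨u, hu⟩
      exact hl (Finset.mem_image.mpr ⟨u, Finset.mem_univ _, hu⟩)
    rw [MulChar.map_nonunit _ this]
    simp
  rw [← h1, Finset.sum_image (fun u _ v _ h => Units.ext h)]
  simp_rw [DirichletCharacter.unit_norm_eq_one]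
  rw [Finset.sum_const, Finset.card_univ, ZMod.card_units_eq_totient]
  simp

lemma jac_core (χ₁ χ₂ : DirichletCharacter ℂ q) (a : ZMod q) (M : ℝ)
    (h : ∀ k, ‖fs (fun l => χ₁ l) k‖ ≤ M) :
    ‖∑ l : ZMod q, χ₁ l * χ₂ (a - l)‖ ^ 2 ≤ (Nat.gcd a.val q : ℝ) * M ^ 2 := by
  have h1 := unit_avg (fun b => ‖∑ l : ZMod q, χ₁ l * χ₂ (b - l)‖ ^ 2) (fun b => by positivity) a
    (fun u => by simp only [jac_unit])
  have h2 := conv_bound (fun l => χ₁ l) (fun l => χ₂ l) M h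
  rw [sum_char_sq] at h2
  have hφ : (0 : ℝ) < q.totient := by exact_mod_cast Nat.totient_pos.mpr (NeZero.pos q)
  refine le_of_mul_le_mul_left ?_ hφ
  calc (q.totient : ℝ) * ‖∑ l : ZMod q, χ₁ l * χ₂ (a - l)‖ ^ 2 ≤ _ := h1
    _ ≤ (Nat.gcd a.val q : ℝ) * (M ^ 2 * q.totient) :=
        mul_le_mul_of_nonneg_left h2 (by positivity)
    _ = _ := by ring

/-! ### Gauss sums -/

lemma fs_prim (χ : DirichletCharacter ℂ q) (hχ : χ.IsPrimitive) (k : ZMod q) :
    fs (fun l => χ l) k = χ⁻¹ k * fs (fun l => χ l) 1 := by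
  have h := gaussSum_mulShift_of_isPrimitive (e := (ZMod.stdAddChar : AddChar (ZMod q) ℂ)) hχ k
  unfold gaussSum at h
  unfold fs
  simp only [mul_one]
  rw [← h]
  refine Finset.sum_congr rfl fun l _ => ?_
  rw [AddChar.mulShift_apply, mul_comm k l]

lemma fs_prim_le (χ : DirichletCharacter ℂ q) (hχ : χ.IsPrimitive) (k : ZMod q) :
    ‖fs (fun l => χ l) k‖ ≤ Real.sqrt q := by
  have h1 := parseval (fun l => χ l)
  have h2 : ∑ k, ‖fs (fun l => χ l) k‖ ^ 2 = (q.totient : ℝ) * ‖fs (fun l => χ l) 1‖ ^ 2 := by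
    rw [← sum_char_sq χ⁻¹, Finset.sum_mul]
    refine Finset.sum_congr rfl fun k _ => ?_
    rw [fs_prim χ hχ k, norm_mul, mul_pow]
  rw [h2, sum_char_sq] at h1
  have hφ : (0 : ℝ) < q.totient := by exact_mod_cast Nat.totient_pos.mpr (NeZero.pos q)
  have h3 : ‖fs (fun l => χ l) 1‖ ^ 2 = q := by
    refine mul_left_cancel₀ hφ.ne' ?_
    rw [h1]
    ring
  rw [fs_prim χ hχ k, norm_mul]
  refine Real.le_sqrt_of_sq_le ?_
  rw [mul_pow, h3]
  have h4 : ‖χ⁻¹ k‖ ≤ 1 := DirichletCharacter.norm_le_one _ _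
  have h5 : ‖χ⁻¹ k‖ ^ 2 ≤ 1 := pow_le_one₀ (norm_nonneg _) h4
  have hq : (0 : ℝ) ≤ q := by positivity
  nlinarith

end Pool.Agent.Y662.GJ
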