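import Pool.Agent.Y662.GJ.JCore

set_option autoImplicit false

/-! The exponential sums `∑ χ(l) e(k l / q)` for characters which need not be primitive. -/

namespace Pool.Agent.Y662.GJ

open Finset

/-- the additive character modulo `N` as a function of integers -/
noncomputable def en (N : ℕ) (x : ℕ) : ℂ := Complex.exp (2 * Real.pi * Complex.I * x / N)

lemma std_en (N : ℕ) [NeZero N] (x : ℕ) : (ZMod.stdAddChar ((x : ℕ) : ZMod N) : ℂ) = en N x := by
  have := ZMod.stdAddChar_coe (N := N) (x : ℤ)
  rw [en]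
  push_cast at this
  exact this

lemma en_add (N x y : ℕ) : en N (x + y) = en N x * en N y := by
  rw [en, en, en, ← Complex.exp_add]
  congr 1
  push_cast
  ring

lemma en_mul_mul (N d x : ℕ) (hd : d ≠ 0) : en (d * N) (d * x) = en N x := by
  rw [en, en]
  congr 1
  push_cast
  have : (d : ℂ) ≠ 0 := by exact_mod_cast hd
  by_cases hN : (N : ℂ) = 0
  · simp [hN]
  · field_simp

lemma en_norm (N x : ℕ) : ‖en N x‖ = 1 := by
  rw [en, show (2 * Real.pi * Complex.I * x / N : ℂ) = ((2 * Real.pi * x / N : ℝ) : ℂ) * Complex.I by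
    push_cast; ring]
  exact Complex.norm_exp_ofReal_mul_I _

lemma sum_zmod (q : ℕ) [NeZero q] (F : ZMod q → ℂ) : ∑ l : ZMod q, F l = ∑ l ∈ range q, F (l : ZMod q) := by
  symm
  refine Finset.sum_bij' (fun l _ => (l : ZMod q)) (fun l _ => l.val) ?_ ?_ ?_ ?_ ?_
  · intro l _
    exact mem_univ _
  · intro l _
    exact mem_range.mpr (ZMod.val_lt l)
  · intro l hl
    exact ZMod.val_cast_of_lt (mem_range.mp hl)
  · intro l _
    exact ZMod.natCast_zmod_val l
  · intro l _
    rfl

lemma sum_moebius (n : ℕ) : ∑ d ∈ n.divisors, ((ArithmeticFunction.moebius d : ℤ) : ℂ) =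
    if n = 1 then 1 else 0 := by
  have h := congrArg (fun f : ArithmeticFunction ℤ => f n) ArithmeticFunction.moebius_mul_coe_zeta
  simp only [ArithmeticFunction.coe_mul_zeta_apply, ArithmeticFunction.one_apply] at h
  rw [← Int.cast_sum, h]
  split_ifs <;> simp

lemma sum_coprime (q : ℕ) (hq : q ≠ 0) (F : ℕ → ℂ) :
    ∑ l ∈ (range q).filter (fun l => l.Coprime q), F l =
      ∑ d ∈ q.divisors, ((ArithmeticFunction.moebius d : ℤ) : ℂ) * ∑ m ∈ range (q / d), F (d * m) := by
  have h1 : ∀ l ∈ range q, (if l.Coprime q then F l else 0) =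
      ∑ d ∈ q.divisors, if d ∣ l then ((ArithmeticFunction.moebius d : ℤ) : ℂ) * F l else 0 := by
    intro l _
    rw [← Finset.sum_filter]
    have hf : q.divisors.filter (fun d => d ∣ l) = (Nat.gcd l q).divisors := by
      ext d
      simp only [Finset.mem_filter, Nat.mem_divisors]
      constructor
      · rintro ⟨⟨h1, _⟩, h3⟩
        exact ⟨Nat.dvd_gcd h3 h1, Nat.gcd_ne_zero_right hq⟩
      · rintro ⟨h1, _⟩
        exact ⟨⟨h1.trans (Nat.gcd_dvd_right _ _), hq⟩, h1.trans (Nat.gcd_dvd_left _ _)⟩
    rw [hf, ← Finset.sum_mul, sum_moebius]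
    by_cases hc : l.Coprime q
    · rw [if_pos hc, if_pos hc, one_mul]
    · rw [if_neg hc, if_neg hc, zero_mul]
  rw [Finset.sum_filter, Finset.sum_congr rfl h1, Finset.sum_comm]
  refine Finset.sum_congr rfl fun d hd => ?_
  have hdq := (Nat.mem_divisors.mp hd).1
  have hd0 : 0 < d := Nat.pos_of_dvd_of_pos hdq (Nat.pos_of_ne_zero hq)
  rw [← Finset.sum_filter, ← Finset.mul_sum]
  congr 1
  symm
  refine Finset.sum_bij' (fun m _ => d * m) (fun l _ => l / d) ?_ ?_ ?_ ?_ ?_
  · intro m hm
    rw [Finset.mem_filter, Finset.mem_range]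
    refine ⟨?_, Dvd.intro _ rfl⟩
    calc d * m < d * (q / d) := Nat.mul_lt_mul_of_pos_left (Finset.mem_range.mp hm) hd0
      _ = q := Nat.mul_div_cancel' hdq
  · intro l hl
    rw [Finset.mem_filter, Finset.mem_range] at hl
    rw [Finset.mem_range]
    exact Nat.div_lt_div_of_lt_of_dvd hdq hl.1
  · intro m _
    exact Nat.mul_div_cancel_left _ hd0
  · intro l hl
    exact Nat.mul_div_cancel' (Finset.mem_filter.mp hl).2
  · intro m _
    rfl

lemma sum_range_mul' (r s : ℕ) (F : ℕ → ℂ) :
    ∑ m ∈ range (r * s), F m = ∑ t ∈ range s, ∑ u ∈ range r, F (r * t + u) := by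
  induction s with
  | zero => simp
  | succ s ih => rw [Nat.mul_succ, Finset.sum_range_add, ih, Finset.sum_range_succ]

lemma geom (s K : ℕ) (hs : s ≠ 0) (hK : ¬ s ∣ K) : ∑ t ∈ range s, en s (K * t) = 0 := by
  have h1 : ∀ t, en s (K * t) = (en s K) ^ t := by
    intro t
    rw [en, en, ← Complex.exp_nat_mul]
    congr 1
    push_cast
    ring
  have hs' : (s : ℂ) ≠ 0 := by exact_mod_cast hs
  have h2 : en s K ≠ 1 := by
    intro h
    rw [en, Complex.exp_eq_one_iff] at h
    obtain ⟨n, hn⟩ := h
    apply hK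
    have h2pi : (2 * Real.pi * Complex.I : ℂ) ≠ 0 := Complex.two_pi_I_ne_zero
    have h3 : (K : ℂ) = n * s := by
      have : (2 * Real.pi * Complex.I : ℂ) * K = (2 * Real.pi * Complex.I : ℂ) * (n * s) := by
        rw [div_eq_iff hs'] at hn
        rw [hn]
        ring
      exact mul_left_cancel₀ h2pi this
    have h4 : (K : ℤ) = n * s := by exact_mod_cast h3
    exact Int.natCast_dvd_natCast.mp ⟨n, by rw [h4]; ring⟩
  have h3 : (en s K) ^ s = 1 := by
    rw [← h1, en]
    have : (2 * Real.pi * Complex.I * ((K * s : ℕ) : ℂ) / s : ℂ) = (K : ℤ) * (2 * Real.pi * Complex.I) := by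
      push_cast
      field_simp
    rw [this, Complex.exp_int_mul_two_pi_mul_I]
  simp_rw [h1]
  rw [geom_sum_eq h2, h3, sub_self, zero_div]

lemma inner_bound (r s K : ℕ) [NeZero r] (hs : s ≠ 0) (χ : DirichletCharacter ℂ r)
    (hχ : χ.IsPrimitive) :
    ‖∑ m ∈ range (r * s), χ (m : ZMod r) * en (r * s) (K * m)‖ ≤ s * Real.sqrt r := by
  have hr : r ≠ 0 := NeZero.ne r
  have h1 : ∑ m ∈ range (r * s), χ (m : ZMod r) * en (r * s) (K * m) =
      (∑ t ∈ range s, en s (K * t)) * ∑ u ∈ range r, χ (u : ZMod r) * en (r * s) (K * u) := by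
    rw [sum_range_mul', Finset.sum_mul_sum]
    refine Finset.sum_congr rfl fun t _ => Finset.sum_congr rfl fun u _ => ?_
    have e1 : ((r * t + u : ℕ) : ZMod r) = (u : ZMod r) := by simp
    have e2 : K * (r * t + u) = r * (K * t) + K * u := by ring
    rw [e1, e2, en_add, en_mul_mul _ _ _ hr]
    ring
  rw [h1]
  by_cases hK : s ∣ K
  · obtain ⟨K', rfl⟩ := hK
    rw [norm_mul]
    refine mul_le_mul ?_ ?_ (norm_nonneg _) (by positivity)
    · refine (norm_sum_le _ _).trans ?_
      simp_rw [en_norm]
      simp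
    · have h2 : ∑ u ∈ range r, χ (u : ZMod r) * en (r * s) (s * K' * u) =
          fs (fun l => χ l) (K' : ZMod r) := by
        rw [fs, sum_zmod]
        refine Finset.sum_congr rfl fun u _ => ?_
        rw [← Nat.cast_mul, std_en, mul_comm r s, mul_assoc, en_mul_mul _ _ _ hs, mul_comm K' u]
      rw [h2]
      exact fs_prim_le χ hχ _
  · rw [geom s K hs hK, zero_mul, norm_zero]
    positivity

lemma sum_inv_divisors (q : ℕ) (hq : q ≠ 0) : ∑ d ∈ q.divisors, (1 / (d : ℝ)) ≤ 1 + Real.log q := by
  calc ∑ d ∈ q.divisors, (1 / (d : ℝ)) ≤ ∑ d ∈ Icc 1 q, (1 / (d : ℝ)) := by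
        refine Finset.sum_le_sum_of_subset_of_nonneg ?_ (fun _ _ _ => by positivity)
        intro d hd
        have := Nat.mem_divisors.mp hd
        exact Finset.mem_Icc.mpr ⟨Nat.pos_of_dvd_of_pos this.1 (Nat.pos_of_ne_zero hq),
          Nat.le_of_dvd (Nat.pos_of_ne_zero hq) this.1⟩
    _ = (harmonic q : ℝ) := by
        rw [harmonic_eq_sum_Icc]
        push_cast
        simp
    _ ≤ 1 + Real.log q := harmonic_le_one_add_log q

lemma fs_char (q : ℕ) [NeZero q] (χ : DirichletCharacter ℂ q) (k : ZMod q) :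
    fs (fun l => χ l) k = ∑ d ∈ q.divisors, ((ArithmeticFunction.moebius d : ℤ) : ℂ) *
      ∑ m ∈ range (q / d), χ.primitiveCharacter ((d * m : ℕ) : ZMod χ.conductor) *
        en q (k.val * (d * m)) := by
  rw [← sum_coprime q (NeZero.ne q) (fun l => χ.primitiveCharacter ((l : ℕ) : ZMod χ.conductor) *
    en q (k.val * l))]
  rw [fs, sum_zmod, Finset.sum_filter]
  refine Finset.sum_congr rfl fun l _ => ?_
  have hk : (ZMod.stdAddChar ((l : ZMod q) * k) : ℂ) = en q (k.val * l) := by
    rw [← std_en]
    congr 1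
    push_cast
    rw [ZMod.natCast_zmod_val, mul_comm]
  rw [hk]
  by_cases hc : l.Coprime q
  · rw [if_pos hc]
    have := χ.primitiveCharacter_apply_of_isCoprime (a := (l : ℤ))
      (Nat.isCoprime_iff_coprime.mpr hc)
    push_cast at this
    rw [this]
  · rw [if_neg hc]
    have : ¬ IsUnit (l : ZMod q) := by
      rw [ZMod.isUnit_iff_coprime]
      exact hc
    rw [MulChar.map_nonunit _ this, zero_mul]

lemma fs_char_le (q : ℕ) [NeZero q] (χ : DirichletCharacter ℂ q) (k : ZMod q) :
    ‖fs (fun l => χ l) k‖ ≤ q / Real.sqrt χ.conductor * (1 + Real.log q) := by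
  haveI : NeZero χ.conductor := ⟨χ.conductor_ne_zero⟩
  have hr0 : (0 : ℝ) < χ.conductor := by exact_mod_cast Nat.pos_of_ne_zero χ.conductor_ne_zero
  have hq0 : (0 : ℝ) < q := by exact_mod_cast NeZero.pos q
  rw [fs_char]
  calc ‖∑ d ∈ q.divisors, ((ArithmeticFunction.moebius d : ℤ) : ℂ) *
      ∑ m ∈ range (q / d), χ.primitiveCharacter ((d * m : ℕ) : ZMod χ.conductor) *
        en q (k.val * (d * m))‖ ≤ ∑ d ∈ q.divisors, q / Real.sqrt χ.conductor * (1 / (d : ℝ)) := by
        refine (norm_sum_le _ _).trans (Finset.sum_le_sum fun d hd => ?_)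
        have hdq := (Nat.mem_divisors.mp hd).1
        have hd0 : 0 < d := Nat.pos_of_dvd_of_pos hdq (NeZero.pos q)
        have hdR : (0 : ℝ) < d := by exact_mod_cast hd0
        rw [norm_mul]
        have hμ : ‖((ArithmeticFunction.moebius d : ℤ) : ℂ)‖ ≤ 1 := by
          rw [Complex.norm_intCast]
          exact_mod_cast ArithmeticFunction.abs_moebius_le_one
        have hnn : 0 ≤ q / Real.sqrt χ.conductor * (1 / (d : ℝ)) := by positivity
        have hmain : ‖∑ m ∈ range (q / d),
            χ.primitiveCharacter ((d * m : ℕ) : ZMod χ.conductor) * en q (k.val * (d * m))‖ ≤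
            q / Real.sqrt χ.conductor * (1 / (d : ℝ)) := by
          by_cases hc : d.Coprime χ.conductor
          · have hdvd : χ.conductor ∣ q / d := by
              have : χ.conductor ∣ d * (q / d) := by
                rw [Nat.mul_div_cancel' hdq]
                exact χ.conductor_dvd_level
              exact (Nat.Coprime.symm hc).dvd_of_dvd_mul_left this
            obtain ⟨s, hs⟩ := hdvd
            have hqs : q = d * (χ.conductor * s) := by
              rw [← hs, Nat.mul_div_cancel' hdq]
            have hs0 : s ≠ 0 := by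
              rintro rfl
              rw [mul_zero, mul_zero] at hqs
              exact NeZero.ne q hqs
            have e1 : ∑ m ∈ range (q / d),
                χ.primitiveCharacter ((d * m : ℕ) : ZMod χ.conductor) * en q (k.val * (d * m)) =
                χ.primitiveCharacter (d : ZMod χ.conductor) *
                  ∑ m ∈ range (χ.conductor * s), χ.primitiveCharacter (m : ZMod χ.conductor) *
                    en (χ.conductor * s) (k.val * m) := by
              rw [hs, Finset.mul_sum]
              refine Finset.sum_congr rfl fun m _ => ?_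
              have e2 : en q (k.val * (d * m)) = en (χ.conductor * s) (k.val * m) := by
                have := en_mul_mul (χ.conductor * s) d (k.val * m) hd0.ne'
                rw [← hqs] at this
                rw [← this]
                congr 1
                ring
              rw [e2, Nat.cast_mul, map_mul]
              ring
            rw [e1, norm_mul]
            have e3 := inner_bound χ.conductor s k.val hs0 χ.primitiveCharacter
              χ.primitiveCharacter_isPrimitive
            have e4 : ‖χ.primitiveCharacter (d : ZMod χ.conductor)‖ ≤ 1 :=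
              DirichletCharacter.norm_le_one _ _
            have e5 : (s : ℝ) * Real.sqrt χ.conductor = q / Real.sqrt χ.conductor * (1 / (d : ℝ)) := by
              have hsq : Real.sqrt χ.conductor * Real.sqrt χ.conductor = χ.conductor :=
                Real.mul_self_sqrt hr0.le
              have hsp : 0 < Real.sqrt χ.conductor := Real.sqrt_pos.mpr hr0
              have hqR : (q : ℝ) = d * (χ.conductor * s) := by exact_mod_cast hqs
              rw [hqR]
              field_simp
              nlinarith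
            calc _ ≤ 1 * (s * Real.sqrt χ.conductor) :=
                  mul_le_mul e4 e3 (norm_nonneg _) zero_le_one
              _ = _ := by rw [one_mul, e5]
          · have e1 : ∀ m ∈ range (q / d),
                χ.primitiveCharacter ((d * m : ℕ) : ZMod χ.conductor) *
                  en q (k.val * (d * m)) = 0 := by
              intro m _
              have hn : ¬ IsUnit (d : ZMod χ.conductor) := by
                rw [ZMod.isUnit_iff_coprime]
                exact hc
              rw [Nat.cast_mul, map_mul, MulChar.map_nonunit _ hn, zero_mul, zero_mul]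
            rw [Finset.sum_eq_zero e1, norm_zero]
            exact hnn
        calc _ ≤ 1 * (q / Real.sqrt χ.conductor * (1 / (d : ℝ))) :=
              mul_le_mul hμ hmain (norm_nonneg _) zero_le_one
          _ = _ := one_mul _
    _ = q / Real.sqrt χ.conductor * ∑ d ∈ q.divisors, (1 / (d : ℝ)) := by rw [Finset.mul_sum]
    _ ≤ _ := mul_le_mul_of_nonneg_left (sum_inv_divisors q (NeZero.ne q)) (by positivity)

theorem jac_main (q : ℕ) [NeZero q] (χ₁ χ₂ : DirichletCharacter ℂ q) (a : ZMod q) :
    ‖∑ l : ZMod q, χ₁ l * χ₂ (a - l)‖ ≤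
      q * (1 + Real.log q) * Real.sqrt ((Nat.gcd a.val q : ℝ) / χ₁.conductor) := by
  have hr0 : (0 : ℝ) < χ₁.conductor := by exact_mod_cast Nat.pos_of_ne_zero χ₁.conductor_ne_zero
  have hq0 : (1 : ℝ) ≤ q := by exact_mod_cast NeZero.pos q
  have hlog : 0 ≤ Real.log q := Real.log_nonneg hq0
  have h := jac_core χ₁ χ₂ a _ (fs_char_le q χ₁)
  refine le_of_sq_le_sq ?_ (by positivity)
  refine h.trans (le_of_eq ?_)
  have e1 : Real.sqrt ((Nat.gcd a.val q : ℝ) / χ₁.conductor) ^ 2 =
      (Nat.gcd a.val q : ℝ) / χ₁.conductor := Real.sq_sqrt (by positivity)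
  have e2 : Real.sqrt (χ₁.conductor : ℝ) ^ 2 = χ₁.conductor := Real.sq_sqrt hr0.le
  calc (Nat.gcd a.val q : ℝ) * (q / Real.sqrt χ₁.conductor * (1 + Real.log q)) ^ 2 =
      (Nat.gcd a.val q : ℝ) * (q ^ 2 / Real.sqrt χ₁.conductor ^ 2 * (1 + Real.log q) ^ 2) := by
        rw [mul_pow, div_pow]
    _ = (q * (1 + Real.log q)) ^ 2 * Real.sqrt ((Nat.gcd a.val q : ℝ) / χ₁.conductor) ^ 2 := by
        rw [e1, e2]
        ring
    _ = _ := by rw [← mul_pow]

end Pool.Agent.Y662.GJ
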