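import Pool.Agent.Y662.GJ.JGauss
import Pool.Agent.Y883.GJ.Stm

set_option autoImplicit false

/-! Job GJ-JAC: generalised Jacobi sums. -/

namespace Pool.Agent.Y662.GJ

open Pool.Agent.Y883.GJ

theorem jac : JacStm := by
  intro q _ χ₁ χ₂ a
  exact jac_main q χ₁ χ₂ a

end Pool.Agent.Y662.GJ
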